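import Mathlib
import Pool.Agent.H.MP_5e7574_co.Defs
import Pool.Agent.H.MP_5e7574_co.A

set_option autoImplicit false

namespace Pool.Agent.Results.MP_5e7574_co.No

open Pool.Agent.H.MP_5e7574_co Filter Topology

theorem result : ∃ (a b : ℕ) (E : Fin a → Fin b → Prop), (∃ x l, E x l) ∧
    (∀ p : ℕ, p.Prime → p % 3 = 2 → inj a b E p = 0) ∧
    (∀ p : ℕ, p.Prime → p % 3 = 1 → 1 ≤ inj a b E p) ∧
    ¬ ∃ L : EReal, Tendsto
      (fun n => elog (Nat.nth Nat.Prime n) (inj a b E (Nat.nth Nat.Prime n))) atTop (𝓝 L) :=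
  ⟨8, 8, MK, ⟨0, 0, by decide⟩, inj_zero, inj_pos, noconv⟩

end Pool.Agent.Results.MP_5e7574_co.No
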